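import Mathlib

/-!
# Concave sequences and their rescaled limits
-/

open Filter Topology Set

namespace Pool.Agent.R990.SC

/-- concave sequences with `V 0 = 0` and asymptotic slope `σ ≥ 0` -/
structure Cv (V : ℕ → ℝ) (σ : ℝ) : Prop where
  zero : V 0 = 0
  conc : ∀ R, V R + V (R + 2) ≤ 2 * V (R + 1)
  lim : Tendsto (fun R : ℕ => V R / R) atTop (𝓝 σ)
  nn : 0 ≤ σ

variable {V : ℕ → ℝ} {σ κ : ℝ}

lemma Cv.fanti (h : Cv V σ) {a b : ℕ} (hab : a ≤ b) : V (b + 1) - V b ≤ V (a + 1) - V a := by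
  induction b, hab using Nat.le_induction with
  | base => exact le_rfl
  | succ b hab ih =>
    have h1 := h.conc b
    have h2 : V (b + 1 + 1) = V (b + 2) := rfl
    rw [h2]
    linarith

/-- upper bound of increments -/
lemma Cv.up (h : Cv V σ) {a b c : ℕ} (hab : a ≤ b) (hbc : b ≤ c) :
    V c - V b ≤ ((c : ℝ) - b) * (V (a + 1) - V a) := by
  induction c, hbc using Nat.le_induction with
  | base => simp
  | succ c hbc ih =>
    have h1 := h.fanti (hab.trans hbc)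
    push_cast
    nlinarith

/-- lower bound of increments -/
lemma Cv.dn (h : Cv V σ) {a b c : ℕ} (hab : a ≤ b) (hbc : b ≤ c) :
    ((b : ℝ) - a) * (V (c + 1) - V c) ≤ V b - V a := by
  induction b, hab using Nat.le_induction with
  | base => simp
  | succ b hab ih =>
    have h1 := h.fanti (show b ≤ c by omega)
    have h2 := ih (by omega)
    push_cast
    nlinarith

lemma Cv.fge (h : Cv V σ) (R : ℕ) : σ ≤ V (R + 1) - V R := by
  have h1 : Tendsto (fun n : ℕ => (V R - R * (V (R + 1) - V R)) * ((n : ℝ)⁻¹) +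
      (V (R + 1) - V R)) atTop (𝓝 ((V R - R * (V (R + 1) - V R)) * 0 + (V (R + 1) - V R))) :=
    ((tendsto_inv_atTop_nhds_zero_nat (𝕜 := ℝ)).const_mul _).add tendsto_const_nhds
  rw [mul_zero, zero_add] at h1
  refine le_of_tendsto_of_tendsto h.lim h1 ?_
  filter_upwards [eventually_ge_atTop (R + 1)] with n hn
  have hn0 : (0 : ℝ) < n := by exact_mod_cast (show 0 < n by omega)
  have h2 := h.up (le_refl R) (show R ≤ n by omega)
  rw [div_le_iff₀ hn0]
  have h3 : ((V R - R * (V (R + 1) - V R)) * (n : ℝ)⁻¹ + (V (R + 1) - V R)) * n =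
      V R + ((n : ℝ) - R) * (V (R + 1) - V R) := by
    field_simp
    ring
  rw [h3]
  linarith

lemma Cv.fnn (h : Cv V σ) (R : ℕ) : 0 ≤ V (R + 1) - V R := h.nn.trans (h.fge R)

lemma Cv.mono (h : Cv V σ) : Monotone V :=
  monotone_nat_of_le_succ fun n => by have := h.fnn n; linarith

/-- the three point inequality -/
lemma Cv.three (h : Cv V σ) {a b c : ℕ} (hab : a ≤ b) (hbc : b ≤ c) :
    (V c - V b) * ((b : ℝ) - a) ≤ (V b - V a) * ((c : ℝ) - b) := by
  have h1 := h.up (le_refl b) hbc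
  have h2 := h.dn hab (le_refl b)
  have h3 : (0 : ℝ) ≤ (b : ℝ) - a := by
    have : (a : ℝ) ≤ b := by exact_mod_cast hab
    linarith
  have h4 : (0 : ℝ) ≤ (c : ℝ) - b := by
    have : (b : ℝ) ≤ c := by exact_mod_cast hbc
    linarith
  calc (V c - V b) * ((b : ℝ) - a) ≤ (((c : ℝ) - b) * (V (b + 1) - V b)) * ((b : ℝ) - a) :=
        mul_le_mul_of_nonneg_right h1 h3
    _ = (((b : ℝ) - a) * (V (b + 1) - V b)) * ((c : ℝ) - b) := by ring
    _ ≤ _ := mul_le_mul_of_nonneg_right h2 h4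

/-- the force at `R` in units of `R` is at least `κ` -/
def AtScale (κ : ℝ) (V : ℕ → ℝ) (R : ℕ) : Prop := 1 ≤ R ∧ κ ≤ (R : ℝ) ^ 2 * (V (R + 1) - V R)

/-- the sum of the forces below the scale -/
lemma Cv.coul (hκ : 0 ≤ κ) {ξ : ℕ} (hξ : ∀ R, R < ξ → ¬ AtScale κ V R) {a b : ℕ}
    (ha : 1 ≤ a) (hab : a ≤ b) (hb : b < ξ) :
    V (b + 1) - V (a + 1) ≤ κ * ((a : ℝ)⁻¹ - (b : ℝ)⁻¹) := by
  induction b, hab using Nat.le_induction with
  | base => simp
  | succ b hab ih =>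
    have h1 := ih (by omega)
    have hb0 : (0 : ℝ) < b := by exact_mod_cast (show 0 < b by omega)
    have h2 : ¬ AtScale κ V (b + 1) := hξ _ hb
    have h3 : ((b + 1 : ℕ) : ℝ) ^ 2 * (V (b + 1 + 1) - V (b + 1)) < κ := by
      by_contra hcon
      exact h2 ⟨by omega, not_lt.1 hcon⟩
    push_cast at h3 ⊢
    have h4 : V (b + 1 + 1) - V (b + 1) ≤ κ * ((b : ℝ)⁻¹ - ((b : ℝ) + 1)⁻¹) := by
      have h5 : V (b + 1 + 1) - V (b + 1) ≤ κ / ((b : ℝ) + 1) ^ 2 := by
        rw [le_div_iff₀ (by positivity)]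
        linarith
      refine h5.trans ?_
      have h6 : (b : ℝ)⁻¹ - ((b : ℝ) + 1)⁻¹ = 1 / ((b : ℝ) * (b + 1)) := by
        field_simp
        ring
      rw [h6, div_eq_mul_one_div]
      refine mul_le_mul_of_nonneg_left ?_ hκ
      refine one_div_le_one_div_of_le (by positivity) ?_
      nlinarith
    linarith

lemma lt_of_not {ξ : ℕ} (hξ : ∀ R, R < ξ → ¬ AtScale κ V R) {a : ℕ} (ha : 1 ≤ a) (hb : a < ξ) :
    (a : ℝ) ^ 2 * (V (a + 1) - V a) ≤ κ := by
  by_contra hcon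
  exact hξ a hb ⟨ha, (not_le.1 hcon).le⟩

end Pool.Agent.R990.SC
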