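import Mathlib
import Pool.Agent.R990.SC.Cv

/-!
# Limits of rescaled concave sequences
-/

open Filter Topology Set

set_option linter.unusedVariables false

namespace Pool.Agent.R990.SC

/-- the rescaled potential -/
noncomputable def resc (V : ℕ → ℝ) (ξ : ℕ) (r : ℝ) : ℝ := ξ * (V ⌊r * ξ⌋₊ - V ξ)

/-- a family of potentials with scales which tend to infinity -/
structure Fam (κ : ℝ) (V : ℕ → ℕ → ℝ) (σ : ℕ → ℝ) (ξ : ℕ → ℕ) : Prop where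
  cv : ∀ k, Cv (V k) (σ k)
  at' : ∀ k, AtScale κ (V k) (ξ k)
  mn : ∀ k R, R < ξ k → ¬ AtScale κ (V k) R
  inf : Tendsto ξ atTop atTop

lemma Fam.sub {κ : ℝ} {V : ℕ → ℕ → ℝ} {σ : ℕ → ℝ} {ξ : ℕ → ℕ} (h : Fam κ V σ ξ) {φ : ℕ → ℕ}
    (hφ : StrictMono φ) :
    Fam κ (fun k => V (φ k)) (fun k => σ (φ k)) (fun k => ξ (φ k)) :=
  ⟨fun k => h.cv _, fun k => h.at' _, fun k => h.mn _, h.inf.comp hφ.tendsto_atTop⟩

section

variable {κ : ℝ} {V : ℕ → ℕ → ℝ} {σ : ℕ → ℝ} {ξ : ℕ → ℕ}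

lemma Fam.infR (h : Fam κ V σ ξ) : Tendsto (fun k => (ξ k : ℝ)) atTop atTop :=
  tendsto_natCast_atTop_atTop.comp h.inf

/-- the rescaled integer points -/
lemma Fam.fl (h : Fam κ V σ ξ) {r : ℝ} (hr : 0 ≤ r) :
    Tendsto (fun k => (⌊r * ξ k⌋₊ : ℝ) / ξ k) atTop (𝓝 r) :=
  (tendsto_nat_floor_mul_div_atTop hr).comp h.infR

lemma Fam.flinf (h : Fam κ V σ ξ) {r : ℝ} (hr : 0 < r) (M : ℕ) :
    ∀ᶠ k in atTop, M ≤ ⌊r * ξ k⌋₊ := by
  have h1 : Tendsto (fun k => r * (ξ k : ℝ)) atTop atTop := h.infR.const_mul_atTop hr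
  filter_upwards [h1.eventually_ge_atTop (M : ℝ)] with k hk
  exact Nat.le_floor hk

lemma Fam.fllt (h : Fam κ V σ ξ) {r : ℝ} (hr : r < 1) (k : ℕ) : ⌊r * ξ k⌋₊ < ξ k := by
  have h1 : (0 : ℝ) < ξ k := by exact_mod_cast (h.at' k).1
  rw [Nat.floor_lt' (by have := (h.at' k).1; omega)]
  nlinarith

lemma Fam.flle (h : Fam κ V σ ξ) {r : ℝ} (hr : r ≤ 1) (k : ℕ) : ⌊r * ξ k⌋₊ ≤ ξ k := by
  have h1 : (0 : ℝ) < ξ k := by exact_mod_cast (h.at' k).1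
  refine Nat.floor_le_of_le ?_
  nlinarith

lemma Fam.flge (h : Fam κ V σ ξ) {r : ℝ} (hr : 1 ≤ r) (k : ℕ) : ξ k ≤ ⌊r * ξ k⌋₊ := by
  have h1 : (0 : ℝ) < ξ k := by exact_mod_cast (h.at' k).1
  refine Nat.le_floor ?_
  nlinarith

lemma flmono (k : ℕ) {a b : ℝ} (hab : a ≤ b) : ⌊a * ξ k⌋₊ ≤ ⌊b * ξ k⌋₊ :=
  Nat.floor_mono (mul_le_mul_of_nonneg_right hab (Nat.cast_nonneg _))

lemma resc_mono (h : Fam κ V σ ξ) (k : ℕ) {a b : ℝ} (hab : a ≤ b) :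
    resc (V k) (ξ k) a ≤ resc (V k) (ξ k) b := by
  unfold resc
  refine mul_le_mul_of_nonneg_left ?_ (Nat.cast_nonneg _)
  have := (h.cv k).mono (flmono (ξ := ξ) k hab)
  linarith

/-- the increments of the rescaled potential are bounded -/
lemma Fam.inc (h : Fam κ V σ ξ) {c a b : ℝ} (hc : 0 < c) (hc1 : c < 1)
    (hca : c ≤ a) (hab : a ≤ b) : ∀ᶠ k in atTop, resc (V k) (ξ k) b - resc (V k) (ξ k) a ≤
      ((⌊b * ξ k⌋₊ : ℝ) / ξ k - (⌊a * ξ k⌋₊ : ℝ) / ξ k) *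
        (κ / ((⌊c * ξ k⌋₊ : ℝ) / ξ k) ^ 2) := by
  filter_upwards [h.flinf hc 1] with k hk
  have hx : (0 : ℝ) < ξ k := by exact_mod_cast (h.at' k).1
  have hR : (0 : ℝ) < ⌊c * ξ k⌋₊ := by exact_mod_cast hk
  have h1 := (h.cv k).up (flmono (ξ := ξ) k hca) (flmono (ξ := ξ) k hab)
  have h2 := lt_of_not (h.mn k) hk (h.fllt hc1 k)
  have h3 : V k (⌊c * ξ k⌋₊ + 1) - V k ⌊c * ξ k⌋₊ ≤ κ / (⌊c * ξ k⌋₊ : ℝ) ^ 2 := by
    rw [le_div_iff₀ (by positivity)]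
    linarith
  have h4 : (⌊a * ξ k⌋₊ : ℝ) ≤ ⌊b * ξ k⌋₊ := by exact_mod_cast flmono (ξ := ξ) k hab
  have h5 : V k ⌊b * ξ k⌋₊ - V k ⌊a * ξ k⌋₊ ≤ ((⌊b * ξ k⌋₊ : ℝ) - ⌊a * ξ k⌋₊) *
      (κ / (⌊c * ξ k⌋₊ : ℝ) ^ 2) :=
    h1.trans (mul_le_mul_of_nonneg_left h3 (by linarith))
  unfold resc
  calc (ξ k : ℝ) * (V k ⌊b * ξ k⌋₊ - V k (ξ k)) - ξ k * (V k ⌊a * ξ k⌋₊ - V k (ξ k)) =
      ξ k * (V k ⌊b * ξ k⌋₊ - V k ⌊a * ξ k⌋₊) := by ring
    _ ≤ ξ k * (((⌊b * ξ k⌋₊ : ℝ) - ⌊a * ξ k⌋₊) * (κ / (⌊c * ξ k⌋₊ : ℝ) ^ 2)) :=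
        mul_le_mul_of_nonneg_left h5 hx.le
    _ = _ := by
        field_simp

lemma Fam.incl (h : Fam κ V σ ξ) {c a b : ℝ} (hc : 0 < c) (hca : c ≤ a) (hab : a ≤ b) :
    Tendsto (fun k => ((⌊b * ξ k⌋₊ : ℝ) / ξ k - (⌊a * ξ k⌋₊ : ℝ) / ξ k) *
        (κ / ((⌊c * ξ k⌋₊ : ℝ) / ξ k) ^ 2)) atTop (𝓝 ((b - a) * (κ / c ^ 2))) := by
  refine Tendsto.mul ((h.fl (by linarith)).sub (h.fl (by linarith))) ?_
  exact Tendsto.div tendsto_const_nhds ((h.fl hc.le).pow 2) (by positivity)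

/-- the rescaled potentials are bounded at each point -/
lemma Fam.bdd (h : Fam κ V σ ξ) {r : ℝ} (hr : 0 < r) :
    ∃ M : ℝ, ∀ᶠ k in atTop, |resc (V k) (ξ k) r| ≤ M := by
  have hone : ∀ k, resc (V k) (ξ k) 1 = 0 := by
    intro k
    unfold resc
    rw [one_mul, Nat.floor_natCast, sub_self, mul_zero]
  rcases le_total r 1 with h1 | h1
  · have hc : 0 < min r (1 / 2) := lt_min hr (by norm_num)
    have hc1 : min r (1 / 2) < 1 := lt_of_le_of_lt (min_le_right _ _) (by norm_num)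
    have h2 := h.inc hc hc1 (min_le_left _ _) h1
    have h3 := h.incl hc (min_le_left _ _) h1
    refine ⟨(1 - r) * (κ / min r (1 / 2) ^ 2) + 1, ?_⟩
    filter_upwards [h2, h3.eventually_le_const (lt_add_one _)] with k hk hk2
    have h4 := resc_mono h k h1
    rw [hone k] at hk h4
    rw [abs_of_nonpos h4]
    linarith
  · have h2 := h.inc (c := 1 / 2) (by norm_num) (by norm_num) (by norm_num) h1
    have h3 := h.incl (c := 1 / 2) (by norm_num) (by norm_num) h1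
    refine ⟨(r - 1) * (κ / (1 / 2) ^ 2) + 1, ?_⟩
    filter_upwards [h2, h3.eventually_le_const (lt_add_one _)] with k hk hk2
    have h4 := resc_mono h k h1
    rw [hone k] at hk h4
    rw [abs_of_nonneg h4]
    linarith

lemma resc_one (k : ℕ) : resc (V k) (ξ k) 1 = 0 := by
  unfold resc
  rw [one_mul, Nat.floor_natCast, sub_self, mul_zero]

end

/-- a sequence which is close to convergent sequences converges -/
lemma conv_of_close {u : ℕ → ℝ} (h : ∀ ε : ℝ, 0 < ε → ∃ (w : ℕ → ℝ) (l : ℝ),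
    Tendsto w atTop (𝓝 l) ∧ ∀ᶠ k in atTop, |u k - w k| ≤ ε) : ∃ l, Tendsto u atTop (𝓝 l) := by
  refine cauchySeq_tendsto_of_complete ?_
  rw [Metric.cauchySeq_iff']
  intro ε hε
  obtain ⟨w, l, hw, hc⟩ := h (ε / 8) (by positivity)
  have h1 := (Metric.tendsto_atTop.1 hw) (ε / 8) (by positivity)
  obtain ⟨n1, hn1⟩ := h1
  obtain ⟨n2, hn2⟩ := eventually_atTop.1 hc
  refine ⟨max n1 n2, fun n hn => ?_⟩
  have a1 := hn1 n ((le_max_left _ _).trans hn)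
  have a2 := hn1 (max n1 n2) (le_max_left _ _)
  have a3 := hn2 n ((le_max_right _ _).trans hn)
  have a4 := hn2 (max n1 n2) (le_max_right _ _)
  rw [Real.dist_eq] at a1 a2 ⊢
  rw [abs_lt] at a1 a2 ⊢
  rw [abs_le] at a3 a4
  constructor <;> linarith

/-- **compactness** -/
theorem Fam.compact {κ : ℝ} {V : ℕ → ℕ → ℝ} {σ : ℕ → ℝ} {ξ : ℕ → ℕ} (h : Fam κ V σ ξ) :
    ∃ φ : ℕ → ℕ, StrictMono φ ∧ ∀ r : ℝ, 0 < r → ∃ l : ℝ,
      Tendsto (fun k => resc (V (φ k)) (ξ (φ k)) r) atTop (𝓝 l) := by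
  obtain ⟨a, φ, hφ, ha⟩ := CompactSpace.tendsto_subseq
    (fun k : ℕ => fun q : ℚ => ((resc (V k) (ξ k) (q : ℝ) : ℝ) : EReal))
  have hF := h.sub hφ
  refine ⟨φ, hφ, ?_⟩
  -- rational points
  have hq : ∀ q : ℚ, 0 < q → ∃ l : ℝ,
      Tendsto (fun k => resc (V (φ k)) (ξ (φ k)) q) atTop (𝓝 l) := by
    intro q hq
    obtain ⟨M, hM⟩ := hF.bdd (r := q) (by exact_mod_cast hq)
    have h1 : Tendsto (fun k => ((resc (V (φ k)) (ξ (φ k)) (q : ℝ) : ℝ) : EReal)) atTop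
        (𝓝 (a q)) := (tendsto_pi_nhds.1 ha) q
    have h2 : a q ≤ ((M : ℝ) : EReal) := by
      refine le_of_tendsto h1 ?_
      filter_upwards [hM] with k hk
      exact EReal.coe_le_coe_iff.2 (abs_le.1 hk).2
    have h3 : ((-M : ℝ) : EReal) ≤ a q := by
      refine ge_of_tendsto h1 ?_
      filter_upwards [hM] with k hk
      exact EReal.coe_le_coe_iff.2 (abs_le.1 hk).1
    have h4 : a q ≠ ⊤ := fun h => by
      rw [h] at h2
      exact absurd h2 (not_le.2 (EReal.coe_lt_top M))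
    have h5 : a q ≠ ⊥ := fun h => by
      rw [h] at h3
      exact absurd h3 (not_le.2 (EReal.bot_lt_coe _))
    refine ⟨(a q).toReal, ?_⟩
    have h6 := (EReal.tendsto_toReal h4 h5).comp h1
    exact h6
  intro r hr
  refine conv_of_close fun ε hε => ?_
  have hc : 0 < min r (1 / 2) := lt_min hr (by norm_num)
  have hc1 : min r (1 / 2) < 1 := lt_of_le_of_lt (min_le_right _ _) (by norm_num)
  obtain ⟨L, hL⟩ : ∃ L, L = |κ| / min r (1 / 2) ^ 2 := ⟨_, rfl⟩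
  have hL0 : 0 ≤ L := by rw [hL]; positivity
  obtain ⟨q, hq1, hq2⟩ := exists_rat_btwn (show r < r + ε / (2 * (L + 1)) by
    have : 0 < ε / (2 * (L + 1)) := by positivity
    linarith)
  obtain ⟨l, hl⟩ := hq q (by exact_mod_cast hr.trans hq1)
  refine ⟨_, l, hl, ?_⟩
  have h2 := hF.inc hc hc1 (min_le_left _ _) hq1.le
  have h3 := hF.incl hc (min_le_left _ _) hq1.le
  have h4 : ((q : ℝ) - r) * (κ / min r (1 / 2) ^ 2) < ε := by
    have e1 : κ / min r (1 / 2) ^ 2 ≤ L := by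
      rw [hL]
      exact div_le_div_of_nonneg_right (le_abs_self _) (by positivity)
    have e2 : (q : ℝ) - r ≤ ε / (2 * (L + 1)) := by linarith
    calc ((q : ℝ) - r) * (κ / min r (1 / 2) ^ 2) ≤ ((q : ℝ) - r) * L :=
          mul_le_mul_of_nonneg_left e1 (by linarith)
      _ ≤ ε / (2 * (L + 1)) * L := mul_le_mul_of_nonneg_right e2 hL0
      _ = ε * (L / (2 * (L + 1))) := by ring
      _ < ε * 1 := by
          refine mul_lt_mul_of_pos_left ?_ hε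
          rw [div_lt_one (by positivity)]
          linarith
      _ = ε := mul_one ε
  filter_upwards [h2, h3.eventually_le_const h4] with k hk hk2
  have h5 := resc_mono hF k hq1.le
  rw [abs_sub_comm, abs_of_nonneg (by linarith)]
  linarith

end Pool.Agent.R990.SC
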