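import Mathlib
import Pool.Agent.R990.SC.Lim

/-!
# Properties of the limits of rescaled concave sequences
-/

open Filter Topology Set

set_option linter.unusedVariables false

namespace Pool.Agent.R990.SC

variable {κ : ℝ} {V : ℕ → ℕ → ℝ} {σ : ℕ → ℝ} {ξ : ℕ → ℕ}

lemma Fam.pos (h : Fam κ V σ ξ) (k : ℕ) : (0 : ℝ) < ξ k := by exact_mod_cast (h.at' k).1

lemma resc_sub (k : ℕ) (a b : ℝ) : resc (V k) (ξ k) b - resc (V k) (ξ k) a =
    ξ k * (V k ⌊b * ξ k⌋₊ - V k ⌊a * ξ k⌋₊) := by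
  unfold resc
  ring

/-- lower bounds by a slope -/
lemma Fam.slope (h : Fam κ V σ ξ) {a b : ℝ} (ha : 0 ≤ a) (hab : a ≤ b) {s : ℝ} {v : ℝ → ℝ}
    (hv : Tendsto (fun k => resc (V k) (ξ k) a) atTop (𝓝 (v a)))
    (hv' : Tendsto (fun k => resc (V k) (ξ k) b) atTop (𝓝 (v b)))
    (hs : ∀ᶠ k in atTop, s ≤ (ξ k : ℝ) ^ 2 * (V k (⌊b * ξ k⌋₊ + 1) - V k ⌊b * ξ k⌋₊)) :
    s * (b - a) ≤ v b - v a := by
  have h1 : Tendsto (fun k => s * ((⌊b * ξ k⌋₊ : ℝ) / ξ k - (⌊a * ξ k⌋₊ : ℝ) / ξ k)) atTop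
      (𝓝 (s * (b - a))) := ((h.fl (ha.trans hab)).sub (h.fl ha)).const_mul s
  refine le_of_tendsto_of_tendsto h1 (hv'.sub hv) ?_
  filter_upwards [hs] with k hk
  have hx := h.pos k
  have h2 := (h.cv k).dn (flmono (ξ := ξ) k hab) (le_refl _)
  have h3 : (⌊a * ξ k⌋₊ : ℝ) ≤ ⌊b * ξ k⌋₊ := by exact_mod_cast flmono (ξ := ξ) k hab
  show _ ≤ resc (V k) (ξ k) b - resc (V k) (ξ k) a
  rw [resc_sub]
  have h4 := mul_le_mul_of_nonneg_left h2 hx.le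
  refine le_trans ?_ h4
  have h5 : s * ((⌊b * ξ k⌋₊ : ℝ) / ξ k - (⌊a * ξ k⌋₊ : ℝ) / ξ k) =
      s * (((⌊b * ξ k⌋₊ : ℝ) - ⌊a * ξ k⌋₊) / ξ k) := by ring
  rw [h5]
  calc s * (((⌊b * ξ k⌋₊ : ℝ) - ⌊a * ξ k⌋₊) / ξ k) ≤
      ((ξ k : ℝ) ^ 2 * (V k (⌊b * ξ k⌋₊ + 1) - V k ⌊b * ξ k⌋₊)) *
        (((⌊b * ξ k⌋₊ : ℝ) - ⌊a * ξ k⌋₊) / ξ k) :=
        mul_le_mul_of_nonneg_right hk (div_nonneg (by linarith) hx.le)
    _ = _ := by field_simp

/-- **the limits of the rescaled potentials** -/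
theorem Fam.main (hκ : 0 < κ) (h : Fam κ V σ ξ) : ∃ φ : ℕ → ℕ, StrictMono φ ∧ ∃ v : ℝ → ℝ,
    (∀ r : ℝ, 0 < r → Tendsto (fun k => resc (V (φ k)) (ξ (φ k)) r) atTop (𝓝 (v r))) ∧
    v 1 = 0 ∧ ConcaveOn ℝ (Ioi 0) v ∧ MonotoneOn v (Ioi 0) ∧
    (∀ a b : ℝ, 0 < a → a ≤ b → b ≤ 1 →
      κ * (b - a) ≤ v b - v a ∧ v b - v a ≤ κ * (1 / a - 1 / b)) ∧
    (∀ a b : ℝ, 1 ≤ a → a ≤ b → v b - v a ≤ κ * (b - a)) ∧
    (∀ s : ℝ, (∀ᶠ k in atTop, s ≤ (ξ (φ k) : ℝ) ^ 2 * σ (φ k)) → ∀ a b : ℝ, 0 < a → a ≤ b →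
      s * (b - a) ≤ v b - v a) := by
  obtain ⟨φ, hφ, hc⟩ := h.compact
  have h' := h.sub hφ
  have hex : ∀ r : ℝ, ∃ l : ℝ, 0 < r →
      Tendsto (fun k => resc (V (φ k)) (ξ (φ k)) r) atTop (𝓝 l) := by
    intro r
    by_cases hr : 0 < r
    · obtain ⟨l, hl⟩ := hc r hr
      exact ⟨l, fun _ => hl⟩
    · exact ⟨0, fun h => absurd h hr⟩
  choose v hv using hex
  have hone : v 1 = 0 := by
    refine tendsto_nhds_unique (hv 1 one_pos) ?_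
    have : ∀ k, resc (V (φ k)) (ξ (φ k)) 1 = 0 := fun k =>
      resc_one (V := fun k => V (φ k)) (ξ := fun k => ξ (φ k)) k
    simp only [this]
    exact tendsto_const_nhds
  have hmono : MonotoneOn v (Ioi 0) := by
    intro a ha b hb hab
    exact le_of_tendsto_of_tendsto' (hv a ha) (hv b hb) fun k => resc_mono h' k hab
  refine ⟨φ, hφ, v, fun r hr => hv r hr, hone, ?_, hmono, ?_, ?_, ?_⟩
  · -- concave
    refine concaveOn_of_slope_anti_adjacent (convex_Ioi 0) ?_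
    intro x y z hx hz hxy hyz
    have hx0 : (0 : ℝ) < x := hx
    have hy0 : (0 : ℝ) < y := hx0.trans hxy
    rw [div_le_div_iff₀ (by linarith) (by linarith)]
    have l1 : Tendsto (fun k => (resc (V (φ k)) (ξ (φ k)) z - resc (V (φ k)) (ξ (φ k)) y) *
        ((⌊y * ξ (φ k)⌋₊ : ℝ) / ξ (φ k) - (⌊x * ξ (φ k)⌋₊ : ℝ) / ξ (φ k))) atTop
        (𝓝 ((v z - v y) * (y - x))) :=
      ((hv z hz).sub (hv y hy0)).mul ((h'.fl hy0.le).sub (h'.fl hx0.le))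
    have l2 : Tendsto (fun k => (resc (V (φ k)) (ξ (φ k)) y - resc (V (φ k)) (ξ (φ k)) x) *
        ((⌊z * ξ (φ k)⌋₊ : ℝ) / ξ (φ k) - (⌊y * ξ (φ k)⌋₊ : ℝ) / ξ (φ k))) atTop
        (𝓝 ((v y - v x) * (z - y))) :=
      ((hv y hy0).sub (hv x hx)).mul ((h'.fl (hy0.trans hyz).le).sub (h'.fl hy0.le))
    refine le_of_tendsto_of_tendsto' l1 l2 fun k => ?_
    have hx := h'.pos k
    have t := (h'.cv k).three (flmono (ξ := fun k => ξ (φ k)) k hxy.le)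
      (flmono (ξ := fun k => ξ (φ k)) k hyz.le)
    have e1 := resc_sub (V := fun k => V (φ k)) (ξ := fun k => ξ (φ k)) k y z
    have e2 := resc_sub (V := fun k => V (φ k)) (ξ := fun k => ξ (φ k)) k x y
    beta_reduce at e1 e2 t hx
    rw [e1, e2]
    have g1 : (ξ (φ k) : ℝ) * (V (φ k) ⌊z * ξ (φ k)⌋₊ - V (φ k) ⌊y * ξ (φ k)⌋₊) *
        ((⌊y * ξ (φ k)⌋₊ : ℝ) / ξ (φ k) - (⌊x * ξ (φ k)⌋₊ : ℝ) / ξ (φ k)) =
        (V (φ k) ⌊z * ξ (φ k)⌋₊ - V (φ k) ⌊y * ξ (φ k)⌋₊) *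
        ((⌊y * ξ (φ k)⌋₊ : ℝ) - (⌊x * ξ (φ k)⌋₊ : ℝ)) := by
      field_simp
    have g2 : (ξ (φ k) : ℝ) * (V (φ k) ⌊y * ξ (φ k)⌋₊ - V (φ k) ⌊x * ξ (φ k)⌋₊) *
        ((⌊z * ξ (φ k)⌋₊ : ℝ) / ξ (φ k) - (⌊y * ξ (φ k)⌋₊ : ℝ) / ξ (φ k)) =
        (V (φ k) ⌊y * ξ (φ k)⌋₊ - V (φ k) ⌊x * ξ (φ k)⌋₊) *
        ((⌊z * ξ (φ k)⌋₊ : ℝ) - (⌊y * ξ (φ k)⌋₊ : ℝ)) := by
      field_simp
    rw [g1, g2]
    exact t
  · -- bounds below one
    intro a b ha hab hb1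
    have hb := ha.trans_le hab
    refine ⟨?_, ?_⟩
    · refine h'.slope ha.le hab (hv a ha) (hv b hb) (Eventually.of_forall fun k => ?_)
      have f1 := (h'.cv k).fanti (h'.flle hb1 k)
      have f2 := (h'.at' k).2
      have f3 : (0 : ℝ) ≤ (ξ (φ k) : ℝ) ^ 2 := sq_nonneg _
      exact f2.trans (mul_le_mul_of_nonneg_left f1 f3)
    · have l1 : ∀ r : ℝ, 0 < r → Tendsto (fun k => (ξ (φ k) : ℝ) *
          (((⌊r * ξ (φ k)⌋₊ - 1 : ℕ) : ℝ))⁻¹) atTop (𝓝 (1 / r)) := by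
        intro r hr
        have t1 : Tendsto (fun k => ((⌊r * ξ (φ k)⌋₊ : ℝ) / ξ (φ k) - 1 / (ξ (φ k) : ℝ))⁻¹) atTop
            (𝓝 ((r - 0)⁻¹)) := by
          refine Tendsto.inv₀ ((h'.fl hr.le).sub ?_) (by rw [sub_zero]; exact hr.ne')
          exact tendsto_const_nhds.div_atTop h'.infR
        rw [sub_zero, ← one_div] at t1
        refine t1.congr' ?_
        filter_upwards [h'.flinf hr 2] with k hk
        have hx := h'.pos k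
        beta_reduce at hx hk
        rw [Nat.cast_sub (by omega), ← sub_div, inv_div, div_eq_mul_inv, Nat.cast_one]
      have l2 : Tendsto (fun k => κ * ((ξ (φ k) : ℝ) * (((⌊a * ξ (φ k)⌋₊ - 1 : ℕ) : ℝ))⁻¹ -
          (ξ (φ k) : ℝ) * (((⌊b * ξ (φ k)⌋₊ - 1 : ℕ) : ℝ))⁻¹)) atTop
          (𝓝 (κ * (1 / a - 1 / b))) := ((l1 a ha).sub (l1 b hb)).const_mul κ
      refine le_of_tendsto_of_tendsto ((hv b hb).sub (hv a ha)) l2 ?_
      filter_upwards [h'.flinf ha 2] with k hk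
      have hx := h'.pos k
      have hAB := flmono (ξ := fun k => ξ (φ k)) k hab
      have hB := h'.flle hb1 k
      beta_reduce at hx hk hAB hB
      have e1 := resc_sub (V := fun k => V (φ k)) (ξ := fun k => ξ (φ k)) k a b
      beta_reduce at e1
      rw [e1]
      have c1 := Cv.coul hκ.le (h'.mn k) (a := ⌊a * ξ (φ k)⌋₊ - 1) (b := ⌊b * ξ (φ k)⌋₊ - 1)
        (by omega) (by omega) (by omega)
      rw [Nat.sub_add_cancel (by omega), Nat.sub_add_cancel (by omega)] at c1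
      have c2 := mul_le_mul_of_nonneg_left c1 hx.le
      refine c2.trans (le_of_eq ?_)
      ring
  · -- bounds above one
    intro a b ha hab
    have ha0 : 0 < a := by linarith
    have hb0 : 0 < b := by linarith
    have hc : ∀ c ∈ Ioo (0 : ℝ) 1, v b - v a ≤ (b - a) * (κ / c ^ 2) := by
      intro c hc
      have hca : c ≤ a := hc.2.le.trans ha
      refine le_of_tendsto_of_tendsto ((hv b hb0).sub (hv a ha0)) (h'.incl hc.1 hca hab)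
        (h'.inc hc.1 hc.2 hca hab)
    have hlim : Tendsto (fun c : ℝ => (b - a) * (κ / c ^ 2)) (𝓝[<] 1)
        (𝓝 ((b - a) * (κ / 1 ^ 2))) := by
      refine Tendsto.const_mul _ (Tendsto.div tendsto_const_nhds ?_ (by norm_num))
      exact ((continuous_pow 2).tendsto 1).mono_left nhdsWithin_le_nhds
    have hfin : v b - v a ≤ (b - a) * (κ / 1 ^ 2) := by
      refine ge_of_tendsto hlim ?_
      filter_upwards [Ioo_mem_nhdsLT (show (0 : ℝ) < 1 by norm_num)] with c hcm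
      exact hc c hcm
    refine hfin.trans (le_of_eq ?_)
    ring
  · -- string tension
    intro s hs a b ha hab
    have hb := ha.trans_le hab
    refine h'.slope ha.le hab (hv a ha) (hv b hb) ?_
    filter_upwards [hs] with k hk
    exact hk.trans (mul_le_mul_of_nonneg_left ((h'.cv k).fge _) (sq_nonneg _))

end Pool.Agent.R990.SC
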