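import Mathlib
import Pool.Agent.R990.Lim4
import Pool.Agent.R990.SC.Props

/-!
# The static potential of the infinite volume theory is a concave sequence
-/

open MeasureTheory Matrix Filter
open scoped Matrix.Norms.Frobenius Topology
open Pool.Agent.H906R3.YM hiding Pl
open Pool.Agent.W793.YM Pool.Agent.TH618.YM Pool.Agent.Y14

namespace Pool.Agent.R990.SC

set_option linter.unusedSectionVars false
set_option linter.unusedVariables false

noncomputable section

/-- the constant -/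
def CC : ℝ := 8 * 450000000 ^ 2

lemma CC_one : 1 ≤ CC := by unfold CC; norm_num

section

variable {G : Type*} [Group G] [TopologicalSpace G] [IsTopologicalGroup G] [CompactSpace G]
  [SecondCountableTopology G] [MeasurableSpace G] [BorelSpace G] (μ : Measure G)
  [IsProbabilityMeasure μ] [μ.IsMulLeftInvariant] [μ.IsMulRightInvariant] [μ.IsInvInvariant]
  {N n : ℕ} {L : LD G N n} {d : ℕ}

/-- the static potential -/
theorem pot_cv (hd : 4 ≤ d) (hN : 1 ≤ N) {β : ℝ} (hβ : 0 < β)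
    (hb3 : 4 * 450000000 * (N / β) ≤ 1)
    {i j : Fin d} (hij : i ≠ j) {w : ℕ → ℕ → ℝ} {s : ℕ → ℕ} (hs : Tendsto s atTop atTop)
    (hw : ∀ R T, Tendsto (fun k => wR2 μ L (s k + 1) β i j R T) atTop (𝓝 (w R T))) :
    ∃ (P : ℕ → ℝ) (σ : ℝ), Cv P σ ∧
      (∀ R, Tendsto (fun T : ℕ => -Real.log (w R T) / T) atTop (𝓝 (P R))) ∧
      ∀ R : ℕ, P R ≤ CC * (N / β) + CC * (N / β) ^ 2 * R := by
  obtain ⟨h1, P, σ, h2, h3, h4, h5, h6⟩ := main4u μ (L := L) hd hN hβ hb3 hij hs hw
  have hpos : ∀ R T, 0 < w R T := fun R T => (Real.exp_pos _).trans_le (h1 R T)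
  have hpw := pw_lim μ (L := L) hN hβ.le hij hs hw
  obtain ⟨k0, k0', kc, kc'⟩ := hpw.conc hpos
  refine ⟨P, σ, ⟨?_, fun R => ?_, h3, h5⟩, h2, fun R => h4 R⟩
  · refine tendsto_nhds_unique (h2 0) ?_
    simp only [k0, zero_div]
    exact tendsto_const_nhds
  · refine le_of_tendsto_of_tendsto' ((h2 R).add (h2 (R + 2))) ((h2 (R + 1)).const_mul 2)
      fun T => ?_
    have hT : (0 : ℝ) ≤ T := Nat.cast_nonneg T
    rw [← add_div, mul_div_assoc']
    exact div_le_div_of_nonneg_right (kc R T) hT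

end

variable {V : ℕ → ℝ} {σ κ lam : ℝ}

/-- the scale is large at weak coupling -/
lemma Cv.scale_large (h : Cv V σ) (hκ : 0 < κ) (hlam : 0 < lam)
    (hV : ∀ R : ℕ, V R ≤ CC * lam + CC * lam ^ 2 * R) {R : ℕ} (hR : AtScale κ V R) :
    (2 * CC)⁻¹ * min 1 κ ≤ lam * R := by
  have hC := CC_one
  have hR1 : (1 : ℝ) ≤ R := by exact_mod_cast hR.1
  have h1 := h.dn (Nat.zero_le R) (le_refl R)
  rw [h.zero, Nat.cast_zero, sub_zero, sub_zero] at h1
  have h2 : κ ≤ R * V R := by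
    refine hR.2.trans ?_
    have := mul_le_mul_of_nonneg_left h1 (show (0 : ℝ) ≤ R by linarith)
    calc (R : ℝ) ^ 2 * (V (R + 1) - V R) = R * (R * (V (R + 1) - V R)) := by ring
      _ ≤ _ := this
  have h3 : κ ≤ CC * (lam * R) * (1 + lam * R) := by
    refine h2.trans ((mul_le_mul_of_nonneg_left (hV R) (by linarith)).trans (le_of_eq ?_))
    ring
  have hx0 : 0 < lam * R := by positivity
  have hinv : (2 * CC)⁻¹ ≤ 1 := inv_le_one_of_one_le₀ (by linarith)
  have hinv0 : 0 ≤ (2 * CC)⁻¹ := by positivity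
  rcases le_total 1 (lam * R) with h4 | h4
  · calc (2 * CC)⁻¹ * min 1 κ ≤ 1 * 1 :=
        mul_le_mul hinv (min_le_left _ _) (le_min zero_le_one hκ.le) zero_le_one
      _ ≤ lam * R := by linarith
  · have h5 : κ ≤ 2 * CC * (lam * R) := by
      refine h3.trans ?_
      have : CC * (lam * R) * (1 + lam * R) ≤ CC * (lam * R) * 2 :=
        mul_le_mul_of_nonneg_left (by linarith) (by positivity)
      linarith
    calc (2 * CC)⁻¹ * min 1 κ ≤ (2 * CC)⁻¹ * κ :=
        mul_le_mul_of_nonneg_left (min_le_right _ _) hinv0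
      _ ≤ (2 * CC)⁻¹ * (2 * CC * (lam * R)) := mul_le_mul_of_nonneg_left h5 hinv0
      _ = lam * R := by field_simp

/-- the potential is bounded if the force is small at all distances -/
lemma no_scale (hκ : 0 < κ) (h : ∀ R, ¬ AtScale κ V R) {R R' : ℕ} (hR : 1 ≤ R) (hR' : R ≤ R') :
    V (R' + 1) - V (R + 1) ≤ κ / R := by
  have h1 := Cv.coul hκ.le (ξ := R' + 1) (fun k _ => h k) hR hR' (by omega)
  refine h1.trans ?_
  rw [div_eq_mul_inv]
  refine mul_le_mul_of_nonneg_left ?_ hκ.le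
  have : (0 : ℝ) ≤ (R' : ℝ)⁻¹ := by positivity
  linarith

end

end Pool.Agent.R990.SC
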