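import Mathlib
import Pool.Agent.R990.SC.Pot

/-!
# Locally uniform convergence
-/

open Filter Topology Set

namespace Pool.Agent.R990.SC

/-- monotone functions which converge pointwise to a continuous function converge locally
uniformly -/
lemma locUnif {u : ℕ → ℝ → ℝ} {v : ℝ → ℝ} (hu : ∀ k, Monotone (u k))
    (hv : ContinuousOn v (Ioi 0)) (h : ∀ r, 0 < r → Tendsto (fun k => u k r) atTop (𝓝 (v r))) :
    TendstoLocallyUniformlyOn u v atTop (Ioi 0) := by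
  rw [Metric.tendstoLocallyUniformlyOn_iff]
  intro ε hε x hx
  have hx0 : (0 : ℝ) < x := hx
  have hc : ContinuousAt v x := (hv x hx).continuousAt (Ioi_mem_nhds hx0)
  obtain ⟨δ, hδ, hd⟩ := Metric.continuousAt_iff.1 hc (ε / 4) (by positivity)
  obtain ⟨η, hη⟩ : ∃ η, η = min (δ / 2) (x / 2) := ⟨_, rfl⟩
  have hη0 : 0 < η := by rw [hη]; exact lt_min (by positivity) (by positivity)
  have hη1 : η ≤ δ / 2 := by rw [hη]; exact min_le_left _ _
  have hη2 : η ≤ x / 2 := by rw [hη]; exact min_le_right _ _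
  refine ⟨Ioo (x - η) (x + η), mem_nhdsWithin_of_mem_nhds (Ioo_mem_nhds (by linarith)
    (by linarith)), ?_⟩
  have e1 := (Metric.tendsto_nhds.1 (h (x - η) (by linarith))) (ε / 4) (by positivity)
  have e2 := (Metric.tendsto_nhds.1 (h (x + η) (by linarith))) (ε / 4) (by positivity)
  have d1 := hd (x := x - η) (by rw [Real.dist_eq, abs_lt]; constructor <;> linarith)
  have d2 := hd (x := x + η) (by rw [Real.dist_eq, abs_lt]; constructor <;> linarith)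
  filter_upwards [e1, e2] with k h1 h2 y hy
  have d3 := hd (x := y) (by rw [Real.dist_eq, abs_lt]; constructor <;> linarith [hy.1, hy.2])
  have m1 := hu k hy.1.le
  have m2 := hu k hy.2.le
  rw [Real.dist_eq, abs_lt] at *
  constructor <;> linarith

/-- **the limits of the rescaled potentials at weak coupling** -/
theorem weak {κ : ℝ} (hκ : 0 < κ) {V : ℕ → ℕ → ℝ} {lam : ℕ → ℝ} {c : ℝ} (hc : 0 < c)
    (hpot : ∀ k, lam k ≤ c → ∃ σ, Cv (V k) σ ∧ 0 < lam k ∧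
      ∀ R : ℕ, V k R ≤ CC * lam k + CC * lam k ^ 2 * R)
    (hlam : Tendsto lam atTop (𝓝 0)) (hex : ∀ k, ∃ R, AtScale κ (V k) R) :
    Tendsto (fun k => sInf {R | AtScale κ (V k) R}) atTop atTop ∧
    ∃ φ : ℕ → ℕ, StrictMono φ ∧ ∃ v : ℝ → ℝ,
    TendstoLocallyUniformlyOn (fun k r => resc (V (φ k)) (sInf {R | AtScale κ (V (φ k)) R}) r) v
      atTop (Ioi 0) ∧
    v 1 = 0 ∧ ConcaveOn ℝ (Set.Ioi 0) v ∧ MonotoneOn v (Set.Ioi 0) ∧
    (∀ a b : ℝ, 0 < a → a ≤ b → b ≤ 1 →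
      κ * (b - a) ≤ v b - v a ∧ v b - v a ≤ κ * (1 / a - 1 / b)) ∧
    (∀ a b : ℝ, 1 ≤ a → a ≤ b → v b - v a ≤ κ * (b - a)) ∧
    (∀ s : ℝ, ∀ σ : ℕ → ℝ, (∀ k, Tendsto (fun R : ℕ => V (φ k) R / R) atTop (𝓝 (σ k))) →
      (∀ᶠ k in atTop, s ≤ ((sInf {R | AtScale κ (V (φ k)) R} : ℕ) : ℝ) ^ 2 * σ k) →
      ∀ a b : ℝ, 0 < a → a ≤ b → s * (b - a) ≤ v b - v a) := by
  obtain ⟨ξ, hξ⟩ : ∃ ξ : ℕ → ℕ, ξ = fun k => sInf {R | AtScale κ (V k) R} := ⟨_, rfl⟩
  have hξk : ∀ k, sInf {R | AtScale κ (V k) R} = ξ k := fun k => by rw [hξ]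
  simp only [hξk]
  have hmem : ∀ k, AtScale κ (V k) (ξ k) := fun k => by
    rw [hξ]
    exact Nat.sInf_mem (hex k)
  have hmin : ∀ k R, R < ξ k → ¬ AtScale κ (V k) R := fun k R hR => by
    rw [hξ] at hR
    exact Nat.notMem_of_lt_sInf hR
  obtain ⟨k0, hk0⟩ := eventually_atTop.1 (hlam.eventually_le_const hc)
  have hC := CC_one
  have hinf : Tendsto ξ atTop atTop := by
    refine tendsto_atTop.2 fun M => ?_
    have hpos : 0 < (2 * CC)⁻¹ * min 1 κ / (M + 1) := by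
      have : 0 < min 1 κ := lt_min one_pos hκ
      positivity
    filter_upwards [hlam.eventually_lt_const hpos, eventually_ge_atTop k0] with k hk hkk
    obtain ⟨σ, h1, h2, h3⟩ := hpot k (hk0 k hkk)
    have h4 := h1.scale_large hκ h2 h3 (hmem k)
    rw [lt_div_iff₀ (by positivity)] at hk
    have h5 : lam k * (M + 1) < lam k * ξ k := lt_of_lt_of_le hk h4
    have h6 : (M : ℝ) + 1 < ξ k := lt_of_mul_lt_mul_left h5 h2.le
    have h7 : M + 1 < ξ k := by exact_mod_cast h6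
    omega
  have hσ : ∀ k, ∃ σ, Cv (V (k + k0)) σ := fun k => by
    obtain ⟨σ, h1, -, -⟩ := hpot (k + k0) (hk0 _ (Nat.le_add_left _ _))
    exact ⟨σ, h1⟩
  choose σ hσ using hσ
  have hF : Fam κ (fun k => V (k + k0)) σ (fun k => ξ (k + k0)) :=
    ⟨hσ, fun k => hmem _, fun k => hmin _, hinf.comp (tendsto_add_atTop_nat k0)⟩
  obtain ⟨φ, hφ, v, hv, p1, p2, p3, p4, p5, p6⟩ := hF.main hκ
  refine ⟨hinf, fun k => φ k + k0, fun a b hab => Nat.add_lt_add_right (hφ hab) _, v,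
    locUnif (fun k a b hab => ?_) (p2.continuousOn isOpen_Ioi) fun r hr => hv r hr,
    p1, p2, p3, p4, p5, ?_⟩
  · exact resc_mono hF (φ k) hab
  · intro s σ' hσ' hs
    refine p6 s ?_
    filter_upwards [hs] with k hk
    rwa [tendsto_nhds_unique (hσ (φ k)).lim (hσ' k)]

end Pool.Agent.R990.SC
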